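import Pool.Agent.Y223.G.Stm6
import Pool.Agent.Y971.G.Ggl

/-!
Job G6-GLA: gluing of the charts, finite groups.
-/

set_option autoImplicit false

namespace Pool.Agent.Y815.G6

open Pool.Agent.Y223.G Pool.Agent.Y971.G

section

variable {k O K : Type} [CommRing k] [CommRing O] [Field K] [Algebra k O]
  [Algebra O K] [Algebra k K] [IsScalarTower k O K] {m : ℕ}

/-- the quotient of two forms is in the chart -/
lemma div_mem0 (s : k) (z : Fin (m + 1) → K) (d : ℕ) (F : K) {G : K} (hG : G ∈ FS k z d) :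
    G / F ∈ AF (OL O (K := K) s) z d F :=
  div_mem (τ := (AlgEquiv.refl : K ≃ₐ[k] K)) s z d 0 F hG

end

section

variable {k K : Type} [CommRing k] [Field K] [Algebra k K]

/-- one factor, the same base -/
lemma rr_loc {B : Type} [CommRing B] [Algebra B K] {τ : K ≃ₐ[k] K} {p l : ℕ} {𝔓 : Ideal B}
    {C C' : Subalgebra B K} {ν : K} (hp : 0 < p) (hν : ν ∈ C) (hτ : τ ν = ν)
    (hle : ∀ c ∈ C', ∃ n : ℕ, ν ^ n * c ∈ C) :
    RR k τ p 𝔓 l C' ≤ loc (RR k τ p 𝔓 l C) (hm 0 ν) (RR_c hp hν) := by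
  refine Algebra.adjoin_le ?_
  rintro f ((hf | ⟨e, he, rfl⟩) | ⟨a, c, hc, ha, rfl⟩)
  · rw [hf]
    exact le_loc _ _ _ RR_s
  · exact le_loc _ _ _ (RR_e he)
  · obtain ⟨n, hn⟩ := hle c hc
    refine ⟨n, ?_⟩
    rw [hm_pow, mul_zero, hm_mul, zero_add, ← df_iter_inv (by rw [map_pow, hτ])]
    exact RR_del ha hn

/-- one factor, different bases -/
lemma rr_loc2 {B B' : Type} [CommRing B] [CommRing B'] [Algebra B K] [Algebra B' K]
    {τ : K ≃ₐ[k] K} {p l : ℕ} {𝔓 : Ideal B} {C : Subalgebra B K} {C' : Subalgebra B' K} {ν : K}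
    (hp : 0 < p) (hν : ν ∈ C) (hν1 : hm 1 ν ∈ RR k τ p 𝔓 l C)
    (hB : ∀ r : B', ∃ n : ℕ, ν ^ n * algebraMap B' K r ∈ C)
    (hle : ∀ c ∈ C', ∃ n : ℕ, ν ^ n * c ∈ C) :
    RR k 1 1 ⊤ 0 C' ≤ loc (RR k τ p 𝔓 l C) (hm 0 ν) (RR_c hp hν) := by
  refine Algebra.adjoin_le ?_
  rintro f ((hf | ⟨e, he, rfl⟩) | ⟨a, c, hc, ha, rfl⟩)
  · rw [hf]
    exact le_loc _ _ _ RR_s
  · obtain ⟨n, hn⟩ := hB e
    refine ⟨n + 1, ?_⟩
    have h1 := Subalgebra.mul_mem _ (RR_c (k := k) (τ := τ) (l := l) (𝔓 := 𝔓) hp hn) hν1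
    rw [hm_mul] at h1
    rw [hm_pow, hm_mul, mul_zero]
    have h2 : ν ^ (n + 1) * algebraMap B' K e = ν ^ n * algebraMap B' K e * ν := by ring
    rw [h2]
    exact h1
  · have ha0 : a = 0 := by omega
    subst ha0
    obtain ⟨n, hn⟩ := hle c hc
    refine ⟨n, ?_⟩
    rw [wt_zero, Function.iterate_zero_apply, hm_pow, mul_zero]
    show hm 0 (ν ^ n) * hm 0 c ∈ _
    rw [hm_mul, zero_add]
    exact RR_c hp hn

variable {G N B : Type} [Group G] [CommRing B] [Algebra B K] (ρ : G →* (K ≃ₐ[k] K))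
  (𝔔 : N → Ideal B) (p l : N → ℕ) (τ : N → G)

lemma mem_RG {C : Subalgebra B K} {f : LP K} : f ∈ RG k ρ 𝔔 p l τ C ↔ f ∈ RR k 1 1 ⊤ 0 C ∧
    ∀ i, f ∈ RR k (ρ (τ i)) (p i) (𝔔 i) (l i) C := by
  unfold RG
  rw [Algebra.mem_inf, Algebra.mem_iInf]

lemma RG_c {C : Subalgebra B K} (hp : ∀ i, 0 < p i) {ν : K} (hν : ν ∈ C) :
    hm 0 ν ∈ RG k ρ 𝔔 p l τ C := by
  rw [mem_RG]
  exact ⟨RR_c one_pos hν, fun i => RR_c (hp i) hν⟩

/-- combination of the factors -/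
lemma comb [Finite N] {C : Subalgebra B K} (hp : ∀ i, 0 < p i) {ν : K} (hν : ν ∈ C) {f : LP K}
    (h0 : ∃ n : ℕ, hm 0 ν ^ n * f ∈ RR k 1 1 ⊤ 0 C)
    (h1 : ∀ i, ∃ n : ℕ, hm 0 ν ^ n * f ∈ RR k (ρ (τ i)) (p i) (𝔔 i) (l i) C) :
    ∃ n : ℕ, hm 0 ν ^ n * f ∈ RG k ρ 𝔔 p l τ C := by
  classical
  have : Fintype N := Fintype.ofFinite N
  obtain ⟨n0, hn0⟩ := h0
  choose n hn using h1
  have key : ∀ (R : Subalgebra k (LP K)), hm 0 ν ∈ R → ∀ a b : ℕ, a ≤ b →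
      hm 0 ν ^ a * f ∈ R → hm 0 ν ^ b * f ∈ R := by
    intro R hR a b hab hf
    have e : hm 0 ν ^ b * f = hm 0 ν ^ (b - a) * (hm 0 ν ^ a * f) := by
      rw [← mul_assoc, ← pow_add, Nat.sub_add_cancel hab]
    rw [e]
    exact R.mul_mem (R.pow_mem hR _) hf
  refine ⟨n0 + ∑ i, n i, ?_⟩
  rw [mem_RG]
  refine ⟨key _ (RR_c one_pos hν) n0 _ (Nat.le_add_right _ _) hn0, fun i => ?_⟩
  refine key _ (RR_c (hp i) hν) (n i) _ ?_ (hn i)
  exact (Finset.single_le_sum (f := n) (fun j _ => Nat.zero_le _) (Finset.mem_univ i)).trans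
    (Nat.le_add_left _ _)

end

theorem t_GLA1 : Pool.Agent.Y223.G.S_GLA1 := by
  classical
  intro k O K G Ω _ _ _ _ _ _ _ _ _ _ _ ρ m z s N _ 𝔔 p l τ hp d Φ Ψ hΦ hΨ x hx
  obtain ⟨_, rfl⟩ := hx
  set ν : K := ∏ ω, Ψ ω / Φ ω with hν
  set C : Subalgebra (OL O (K := K) s) K := CG (OL O (K := K) s) z d Φ with hC
  have hleC : ∀ ω, AF (OL O (K := K) s) (z ω) d (Φ ω) ≤ C := fun ω =>
    le_iSup (fun ω => AF (OL O (K := K) s) (z ω) d (Φ ω)) ω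
  have hfac : ∀ ω, Ψ ω / Φ ω ∈ C := fun ω => hleC ω (div_mem0 s (z ω) d (Φ ω) (hΨ.mem ω))
  have hνC : ν ∈ C := Subalgebra.prod_mem _ fun ω _ => hfac ω
  have hνρ : ∀ g, ρ g ν = ν := by
    intro g
    rw [hν, map_prod]
    rw [← Equiv.prod_comp (MulAction.toPerm g) (fun ω => Ψ ω / Φ ω)]
    refine Finset.prod_congr rfl fun ω _ => ?_
    rw [map_div₀, hΨ.eqv, hΦ.eqv]
    rfl
  have hle : ∀ c ∈ CG (OL O (K := K) s) z d Ψ, ∃ n : ℕ, ν ^ n * c ∈ C := by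
    have h1 : CG (OL O (K := K) s) z d Ψ ≤ TT C ν hνC
        (fun r => ⟨0, by rw [pow_zero, one_mul]; exact Subalgebra.algebraMap_mem _ r⟩) := by
      refine iSup_le fun ω => Algebra.adjoin_le ?_
      rintro _ ⟨x, hx, rfl⟩
      refine ⟨1, ?_⟩
      have e : ν ^ 1 * (x / Ψ ω) = (∏ ω' ∈ Finset.univ.erase ω, Ψ ω' / Φ ω') * (x / Φ ω) := by
        rw [pow_one, hν, ← Finset.mul_prod_erase Finset.univ _ (Finset.mem_univ ω)]
        have h1 := hΦ.ne ω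
        have h2 := hΨ.ne ω
        field_simp
      rw [e]
      refine Subalgebra.mul_mem _ (Subalgebra.prod_mem _ fun j _ => hfac j) ?_
      exact hleC ω (Algebra.subset_adjoin ⟨x, hx, rfl⟩)
    exact h1
  refine ⟨RG_c ρ 𝔔 p l τ hp hνC, fun f hf => ?_⟩
  have hf' := (mem_RG ρ 𝔔 p l τ).1 hf
  exact comb ρ 𝔔 p l τ hp hνC (rr_loc one_pos hνC rfl hle hf'.1)
    (fun i => rr_loc (hp i) hνC (hνρ _) hle (hf'.2 i))

theorem t_GLA2 : Pool.Agent.Y223.G.S_GLA2 := by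
  classical
  intro k O K G Ω _ _ _ _ _ _ _ _ _ _ _ ρ m z s s' hs hs' N _ 𝔔 p l τ N' _ 𝔔' p' l' τ' d Φ hΦ hp
    h𝔔
  set ν : K := algebraMap k K s' / algebraMap k K s with hν
  set C : Subalgebra (OL O (K := K) s) K := CG (OL O (K := K) s) z d Φ with hC
  have hleC : ∀ ω, AF (OL O (K := K) s) (z ω) d (Φ ω) ≤ C := fun ω =>
    le_iSup (fun ω => AF (OL O (K := K) s) (z ω) d (Φ ω)) ω
  -- the inverse of `s`
  have hinv : (algebraMap k K s)⁻¹ ∈ OL O (K := K) s := by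
    refine ⟨1, 1, ?_⟩
    rw [pow_one, mul_inv_cancel₀ hs, map_one]
  have hνO : ν ∈ OL O (K := K) s := by
    rw [hν, div_eq_mul_inv]
    exact Subalgebra.mul_mem _ (Subalgebra.algebraMap_mem _ s') hinv
  have hνC : ν ∈ C := Subalgebra.algebraMap_mem C (⟨ν, hνO⟩ : OL O (K := K) s)
  have hνR1 : ∀ (σ : K ≃ₐ[k] K) (q a : ℕ) (𝔓 : Ideal (OL O (K := K) s)),
      algebraMap k (OL O (K := K) s) s' ∈ 𝔓 → hm 1 ν ∈ RR k σ q 𝔓 a C := by
    intro σ q a 𝔓 h𝔓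
    have h1 : (⟨(algebraMap k K s)⁻¹, hinv⟩ : OL O (K := K) s) *
        algebraMap k (OL O (K := K) s) s' ∈ 𝔓 := Ideal.mul_mem_left _ _ h𝔓
    have h2 := RR_e (k := k) (τ := σ) (p := q) (l := a) (C := C) h1
    have h3 : algebraMap (OL O (K := K) s) K ((⟨(algebraMap k K s)⁻¹, hinv⟩ :
        OL O (K := K) s) * algebraMap k (OL O (K := K) s) s') = ν := by
      rw [map_mul, hν, div_eq_inv_mul]
      rfl
    rw [h3] at h2
    exact h2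
  -- the elements of `OL s'`
  have hOL : ∀ r : OL O (K := K) s', ∃ n : ℕ, ν ^ n * algebraMap (OL O (K := K) s') K r ∈
      OL O (K := K) s := by
    rintro ⟨x, n, y, hy⟩
    refine ⟨n, n, y, ?_⟩
    rw [← hy, hν, div_pow]
    show algebraMap k K s ^ n * (algebraMap k K s' ^ n / algebraMap k K s ^ n * x) = _
    field_simp
  have hOLC : ∀ x : K, x ∈ OL O (K := K) s → x ∈ C := fun x hx =>
    Subalgebra.algebraMap_mem C (⟨x, hx⟩ : OL O (K := K) s)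
  have hB : ∀ r : OL O (K := K) s', ∃ n : ℕ, ν ^ n * algebraMap (OL O (K := K) s') K r ∈ C :=
    fun r => by
      obtain ⟨n, hn⟩ := hOL r
      exact ⟨n, hOLC _ hn⟩
  have hle : ∀ c ∈ CG (OL O (K := K) s') z d Φ, ∃ n : ℕ, ν ^ n * c ∈ C := by
    have h1 : CG (OL O (K := K) s') z d Φ ≤ TT C ν hνC hB := by
      refine iSup_le fun ω => Algebra.adjoin_le ?_
      rintro _ ⟨x, hx, rfl⟩
      refine ⟨0, ?_⟩
      rw [pow_zero, one_mul]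
      exact hleC ω (Algebra.subset_adjoin ⟨x, hx, rfl⟩)
    exact h1
  refine ⟨RG_c ρ 𝔔 p l τ hp hνC, fun f hf => ?_⟩
  have hf' := (mem_RG ρ 𝔔' p' l' τ').1 hf
  exact comb ρ 𝔔 p l τ hp hνC
    (rr_loc2 one_pos hνC (hνR1 1 1 0 ⊤ Submodule.mem_top) hB hle hf'.1)
    (fun i => rr_loc2 (hp i) hνC (hνR1 _ _ _ _ (h𝔔 i)) hB hle hf'.1)

end Pool.Agent.Y815.G6
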