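import Pool.Agent.Y17.G.Defs
import Pool.Agent.Y288.N.Indq
import Pool.Agent.Z179.TREE

/-! Z17G: the parity of the unweighted sums, norms `pr A` (INDQG). -/

set_option autoImplicit false

namespace Pool.Agent.Y815.G

open Finset Matrix
open Pool.Agent.Y17.N
open Pool.Agent.Y17.G
open Pool.Agent.Z700 (V3 vec Ln n0 ep pr Yd lres xres sq7)
open Pool.Agent.Y288.N (g0_three odd_cast odd_of_cast)

/-! ### subsets -/

theorem filt_sdiff (f : ℕ → Prop) [DecidablePred f] (A D : Finset ℕ) :
    (A \ D).filter f = A.filter f \ D.filter f := by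
  ext p
  simp only [mem_filter, mem_sdiff]
  tauto

theorem mem_adm {k : ℕ} {A D : Finset ℕ} : D ∈ adm k A ↔ D ⊆ A ∧ Ty k D := by
  unfold adm
  rw [mem_filter, mem_powerset]

theorem cl_sub {A D : Finset ℕ} (h : Cl A) (hD : D ⊆ A) : Cl D :=
  ⟨fun p hp => h.1 p (hD hp), fun h3 => h.2 (hD h3)⟩

theorem card_inn {A : Finset ℕ} (hA : Cl A) : (inn A).card = (i3 A).card + (i5 A).card := by
  rw [← card_union_of_disjoint]
  · congr 1
    ext p
    simp only [inn, i3, i5, mem_filter, mem_union]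
    constructor
    · rintro ⟨h1, h2⟩
      rcases hA.1 p h1 with h3 | h3
      · exact absurd h3.2.1 h2
      · rcases h3.2.1 with h4 | h4
        · exact Or.inl ⟨h1, h4⟩
        · exact Or.inr ⟨h1, h4⟩
    · rintro (⟨h1, h2⟩ | ⟨h1, h2⟩)
      · exact ⟨h1, by omega⟩
      · exact ⟨h1, by omega⟩
  · rw [disjoint_left]
    intro p h1 h2
    have a1 := (mem_filter.1 h1).2
    have a2 := (mem_filter.1 h2).2
    omega

theorem filt_card (f : ℕ → Prop) [DecidablePred f] {A D : Finset ℕ} (hD : D ⊆ A) :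
    (D.filter f).card + ((A \ D).filter f).card = (A.filter f).card := by
  rw [filt_sdiff, card_sdiff_of_subset (filter_subset_filter _ hD)]
  have := card_le_card (filter_subset_filter f hD)
  omega

theorem ty_sdiff {A D : Finset ℕ} (hA : Ty 1 A) (hD : D ⊆ A) (h : Ty 1 D) : Ty 0 (A \ D) := by
  have h1 : (i3 D).card + (i3 (A \ D)).card = (i3 A).card := filt_card _ hD
  have h2 : (i5 D).card + (i5 (A \ D)).card = (i5 A).card := filt_card _ hD
  obtain ⟨a1, a2⟩ := hA
  obtain ⟨b1, b2⟩ := h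
  unfold Ty
  constructor <;> omega

/-- the exponent -/
def eE (D : Finset ℕ) : ℕ := (sp D).card + (inn D).card / 2

theorem eE_add {A D : Finset ℕ} (hC : Cl A) (hA : Ty 1 A) (hD : D ⊆ A) (h : Ty 1 D) :
    eE A = eE D + eE (A \ D) := by
  have h1 : (sp D).card + (sp (A \ D)).card = (sp A).card := filt_card _ hD
  have h2 : (inn D).card + (inn (A \ D)).card = (inn A).card := filt_card _ hD
  have h3 := card_inn hC
  have h4 := card_inn (cl_sub hC hD)
  have h5 := card_inn (cl_sub hC (sdiff_subset : A \ D ⊆ A))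
  obtain ⟨c1, c2⟩ := ty_sdiff hA hD h
  obtain ⟨a1, a2⟩ := hA
  obtain ⟨b1, b2⟩ := h
  unfold eE
  omega

/-! ### roots modulo seven -/

theorem s7_sp {p : ℕ} (h : Sp p) : s7 p = sq7 p := by
  unfold s7 sq7
  rcases h.2.2 with h1 | h1 | h1
  · rw [if_pos (Or.inl h1), if_pos h1]
  · rw [if_neg (by omega), if_pos (Or.inl h1), if_neg (by omega), if_pos h1]
  · rw [if_neg (by omega), if_neg (by omega), if_neg (by omega), if_neg (by omega)]

theorem s7_sq {p : ℕ} (h : Sp p) : s7 p ^ 2 = (p : ZMod 7) ∧ s7 p ≠ 0 := by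
  have h7 : ((p % 7 : ℕ) : ZMod 7) = (p : ZMod 7) := by simp
  unfold s7
  rcases h.2.2 with h1 | h1 | h1
  · rw [if_pos (Or.inl h1), ← h7, h1]
    decide
  · rw [if_neg (by omega), if_pos (Or.inl h1), ← h7, h1]
    decide
  · rw [if_neg (by omega), if_neg (by omega), ← h7, h1]
    decide

theorem s7_in {p : ℕ} (h : In p) : s7 p ^ 2 = -(p : ZMod 7) ∧ s7 p ≠ 0 := by
  have h7 : ((p % 7 : ℕ) : ZMod 7) = (p : ZMod 7) := by simp
  unfold s7
  rcases h.2.2 with h1 | h1 | h1
  · rw [if_neg (by omega), if_neg (by omega), ← h7, h1]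
    decide
  · rw [if_neg (by omega), if_pos (Or.inr h1), ← h7, h1]
    decide
  · rw [if_pos (Or.inr h1), ← h7, h1]
    decide

theorem bt_ne {D : Finset ℕ} (hD : Cl D) : bt D ≠ 0 := by
  have : Fact (Nat.Prime 7) := ⟨by norm_num⟩
  unfold bt
  rw [prod_ne_zero_iff]
  intro p hp
  rcases hD.1 p hp with h | h
  · exact (s7_sq h).2
  · exact (s7_in h).2

theorem bt_sq {D : Finset ℕ} (hD : Cl D) : bt D ^ 2 = (-1) ^ (inn D).card * (pr D : ZMod 7) := by
  induction D using Finset.induction_on with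
  | empty =>
    unfold bt pr inn
    rw [filter_empty]
    simp
  | insert p D hp ih =>
    have ih' := ih (cl_sub hD (subset_insert p D))
    have e1 : bt (insert p D) = s7 p * bt D := by
      unfold bt
      rw [prod_insert hp]
    have e2 : pr (insert p D) = p * pr D := by
      unfold pr
      rw [prod_insert hp]
    rw [e1, e2, mul_pow, ih']
    rcases hD.1 p (mem_insert_self p D) with h | h
    · have e3 : inn (insert p D) = inn D := by
        unfold inn
        rw [filter_insert, if_neg (by rw [h.2.1]; simp)]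
      rw [e3, (s7_sq h).1]
      push_cast
      ring
    · have h8 : ¬ p % 8 = 1 := by
        have := h.2.1
        omega
      have e3 : inn (insert p D) = insert p (inn D) := by
        unfold inn
        rw [filter_insert, if_pos h8]
      have e4 : p ∉ inn D := fun h => hp (mem_filter.1 h).1
      rw [e3, card_insert_of_notMem e4, (s7_in h).1]
      push_cast
      ring

theorem bt_sq1 {D : Finset ℕ} (hD : Cl D) (h : Ty 1 D) : bt D ^ 2 = -(pr D : ZMod 7) := by
  have h1 := card_inn hD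
  obtain ⟨a1, a2⟩ := h
  have : Odd (inn D).card := by
    rw [Nat.odd_iff]
    omega
  rw [bt_sq hD, this.neg_one_pow]
  ring

theorem bt_sq0 {D : Finset ℕ} (hD : Cl D) (h : Ty 0 D) : bt D ^ 2 = (pr D : ZMod 7) := by
  have h1 := card_inn hD
  obtain ⟨a1, a2⟩ := h
  have : Even (inn D).card := by
    rw [Nat.even_iff]
    omega
  rw [bt_sq hD, this.neg_one_pow]
  ring

theorem bt_mul {A D : Finset ℕ} (hD : D ⊆ A) : bt D * bt (A \ D) = bt A := by
  unfold bt
  rw [← prod_sdiff hD]
  ring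

/-! ### the norms -/

theorem pr_mod {D : Finset ℕ} (hD : Cl D) :
    pr D % 8 = 3 ^ ((i3 D).card % 2) * 5 ^ ((i5 D).card % 2) % 8 := by
  induction D using Finset.induction_on with
  | empty =>
    unfold pr i3 i5
    rw [filter_empty, filter_empty]
    simp
  | insert p D hp ih =>
    have ih' := ih (cl_sub hD (subset_insert p D))
    have e2 : pr (insert p D) = p * pr D := by
      unfold pr
      rw [prod_insert hp]
    have n3 : p ∉ i3 D := fun h => hp (mem_filter.1 h).1
    have n5 : p ∉ i5 D := fun h => hp (mem_filter.1 h).1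
    have h8 : p % 8 = 1 ∨ p % 8 = 3 ∨ p % 8 = 5 := by
      rcases hD.1 p (mem_insert_self p D) with h | h
      · exact Or.inl h.2.1
      · exact Or.inr h.2.1
    rcases h8 with h | h | h
    · have e3 : i3 (insert p D) = i3 D := by
        unfold i3
        rw [filter_insert, if_neg (by omega)]
      have e5 : i5 (insert p D) = i5 D := by
        unfold i5
        rw [filter_insert, if_neg (by omega)]
      rw [e2, e3, e5, Nat.mul_mod, h, ih']
      simp
    · have e3 : i3 (insert p D) = insert p (i3 D) := by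
        unfold i3
        rw [filter_insert, if_pos h]
      have e5 : i5 (insert p D) = i5 D := by
        unfold i5
        rw [filter_insert, if_neg (by omega)]
      rw [e2, e3, e5, card_insert_of_notMem n3, Nat.mul_mod, h, ih']
      rcases Nat.mod_two_eq_zero_or_one (i3 D).card with a | a
      · rcases Nat.mod_two_eq_zero_or_one (i5 D).card with b | b
        · rw [a, b, show ((i3 D).card + 1) % 2 = 1 by omega]
          norm_num
        · rw [a, b, show ((i3 D).card + 1) % 2 = 1 by omega]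
          norm_num
      · rcases Nat.mod_two_eq_zero_or_one (i5 D).card with b | b
        · rw [a, b, show ((i3 D).card + 1) % 2 = 0 by omega]
          norm_num
        · rw [a, b, show ((i3 D).card + 1) % 2 = 0 by omega]
          norm_num
    · have e3 : i3 (insert p D) = i3 D := by
        unfold i3
        rw [filter_insert, if_neg (by omega)]
      have e5 : i5 (insert p D) = insert p (i5 D) := by
        unfold i5
        rw [filter_insert, if_pos h]
      rw [e2, e3, e5, card_insert_of_notMem n5, Nat.mul_mod, h, ih']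
      rcases Nat.mod_two_eq_zero_or_one (i3 D).card with a | a
      · rcases Nat.mod_two_eq_zero_or_one (i5 D).card with b | b
        · rw [a, b, show ((i5 D).card + 1) % 2 = 1 by omega]
          norm_num
        · rw [a, b, show ((i5 D).card + 1) % 2 = 0 by omega]
          norm_num
      · rcases Nat.mod_two_eq_zero_or_one (i5 D).card with b | b
        · rw [a, b, show ((i5 D).card + 1) % 2 = 1 by omega]
          norm_num
        · rw [a, b, show ((i5 D).card + 1) % 2 = 0 by omega]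
          norm_num

theorem pr_mod1 {D : Finset ℕ} (hD : Cl D) (h : Ty 1 D) : pr D % 8 = 3 := by
  rw [pr_mod hD, h.1, h.2]
  norm_num

theorem pr_mod0 {D : Finset ℕ} (hD : Cl D) (h : Ty 0 D) : pr D % 8 = 1 := by
  rw [pr_mod hD, h.1, h.2]
  norm_num

theorem cl_prime {D : Finset ℕ} (hD : Cl D) {p : ℕ} (hp : p ∈ D) : p.Prime := by
  rcases hD.1 p hp with h | h
  · exact h.1
  · exact h.1

theorem pr_sqf {D : Finset ℕ} (hD : Cl D) : Squarefree (pr D) := by
  unfold pr
  refine Finset.squarefree_prod_of_pairwise_isCoprime ?_ ?_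
  · intro p hp r hr hpr
    rw [Function.onFun, ← Nat.coprime_iff_isRelPrime]
    exact (Nat.coprime_primes (cl_prime hD hp) (cl_prime hD hr)).2 hpr
  · exact fun p hp => (cl_prime hD hp).prime.squarefree

theorem three_ndvd {D : Finset ℕ} (hD : Cl D) : ¬ 3 ∣ pr D := by
  intro h
  unfold pr at h
  have p3 : Nat.Prime 3 := by norm_num
  obtain ⟨p, hp, h3⟩ := (Prime.dvd_finsetProd_iff p3.prime _).1 h
  have := (Nat.prime_dvd_prime_iff_eq p3 (cl_prime hD hp)).1 h3
  exact hD.2 (this ▸ hp)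

/-- the bilinear identity for a splitting -/
theorem bil (hb : S_BIL) {A D : Finset ℕ} (hC : Cl A) (hA : Ty 1 A) (hD : D ⊆ A) (hT : Ty 1 D) :
    g0 ((pr D : ℕ) : ℤ) (bt D) * g0 ((3 * pr (A \ D) : ℕ) : ℤ) (2 * bt (A \ D)) =
      3 * (SB (pr D) (3 * pr (A \ D)) (-(2 * bt A)) (-1) -
        SB (pr D) (3 * pr (A \ D)) (-(2 * bt A)) 1) := by
  have h20 : (2 : ZMod 7) ≠ 0 := by decide
  have h22 : (2 : ZMod 7) ^ 2 = -3 := by decide
  have : Fact (Nat.Prime 7) := ⟨by norm_num⟩
  have hCD : Cl D := cl_sub hC hD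
  have hCE : Cl (A \ D) := cl_sub hC sdiff_subset
  have hTE : Ty 0 (A \ D) := ty_sdiff hA hD hT
  have c1 : pr D % 8 = 3 := pr_mod1 hCD hT
  have m2 := pr_mod0 hCE hTE
  have c2 : 3 * pr (A \ D) % 8 = 3 := by omega
  have p3 : Nat.Prime 3 := by norm_num
  have n1 := three_ndvd hCD
  have n2 := three_ndvd hCE
  have hns : ∀ b : ℤ, b ^ 2 ≠ ((pr D : ℕ) : ℤ) * ((3 * pr (A \ D) : ℕ) : ℤ) := by
    intro b hb2
    have e1 : b.natAbs ^ 2 = (pr D) * (3 * pr (A \ D)) := by
      have : ((b.natAbs ^ 2 : ℕ) : ℤ) = (((pr D) * (3 * pr (A \ D)) : ℕ) : ℤ) := by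
        rw [Nat.cast_pow, Int.natCast_natAbs, sq_abs, hb2]
        push_cast
        ring
      exact_mod_cast this
    have d1 : 3 ∣ b.natAbs := by
      refine p3.dvd_of_dvd_pow (n := 2) ?_
      rw [e1]
      exact ⟨pr D * pr (A \ D), by ring⟩
    obtain ⟨c, hc⟩ := d1
    have e2 : 3 * c ^ 2 = pr D * pr (A \ D) := by
      rw [hc] at e1
      have : 3 * (3 * c ^ 2) = 3 * (pr D * pr (A \ D)) := by
        rw [show 3 * (3 * c ^ 2) = (3 * c) ^ 2 by ring, e1]
        ring
      exact Nat.eq_of_mul_eq_mul_left (by norm_num) this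
    have d2 : 3 ∣ pr D * pr (A \ D) := ⟨c ^ 2, e2.symm⟩
    rcases p3.dvd_mul.1 d2 with d3 | d3
    · exact n1 d3
    · exact n2 d3
  have hn0 : (2 : ZMod 7) * bt (A \ D) ≠ 0 := mul_ne_zero h20 (bt_ne hCE)
  have hsq2 : (2 * bt (A \ D)) ^ 2 = -((3 * pr (A \ D) : ℕ) : ZMod 7) := by
    rw [mul_pow, bt_sq0 hCE hTE]
    push_cast
    rw [h22]
    ring
  have b1 := hb (pr D) (3 * pr (A \ D)) (pr_sqf hCD) c1 c2 (bt D) (2 * bt (A \ D)) (bt_ne hCD)
    hn0 (bt_sq1 hCD hT) hsq2 1 (Or.inl rfl) (fun b _ _ => hns b)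
  have b2 := hb (pr D) (3 * pr (A \ D)) (pr_sqf hCD) c1 c2 (bt D) (2 * bt (A \ D)) (bt_ne hCD)
    hn0 (bt_sq1 hCD hT) hsq2 (-1) (Or.inr rfl) (fun b _ _ => hns b)
  have e : bt D * (2 * bt (A \ D)) = 2 * bt A := by
    rw [← bt_mul hD]
    ring
  rw [e] at b1 b2
  linarith

/-! ### the parity of the sum over the splittings -/

/-- the expected parity, norms `pr D` -/
noncomputable def zq (D : Finset ℕ) : ℤ := Yd lres (fun p => xres p + ei D p) (sp D)

/-- the expected parity, norms `3 pr D` -/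
noncomputable def z3 (D : Finset ℕ) : ℤ := Yd lres (fun p => xres p + eQ 3 p + ei D p) (sp D)

theorem z3_empty : z3 ∅ = 1 := by
  unfold z3
  have : sp ∅ = ∅ := by
    unfold sp
    rw [filter_empty]
  rw [this]
  exact Pool.Agent.Z179.yd_empty lres _

/-- the diagonal part of a set of inert primes -/
noncomputable def e1 (S : Finset ℕ) (p : ℕ) : ℤ := ∑ r ∈ S, eQ r p

theorem inn_un {A S Q : Finset ℕ} (hS : S ⊆ inn A) (hQ : Q ⊆ sp A) : inn (S ∪ Q) = S := by
  ext p
  unfold inn
  rw [mem_filter, mem_union]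
  constructor
  · rintro ⟨h1 | h1, h2⟩
    · exact h1
    · exact absurd (mem_filter.1 (hQ h1)).2 h2
  · intro h
    exact ⟨Or.inl h, (mem_filter.1 (hS h)).2⟩

theorem sp_un {A S Q : Finset ℕ} (hS : S ⊆ inn A) (hQ : Q ⊆ sp A) : sp (S ∪ Q) = Q := by
  ext p
  unfold sp
  rw [mem_filter, mem_union]
  constructor
  · rintro ⟨h1 | h1, h2⟩
    · exact absurd h2 (mem_filter.1 (hS h1)).2
    · exact h1
  · intro h
    exact ⟨Or.inr h, (mem_filter.1 (hQ h)).2⟩

theorem un_eq (D : Finset ℕ) : inn D ∪ sp D = D := by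
  ext p
  unfold inn sp
  rw [mem_union, mem_filter, mem_filter]
  tauto

theorem ty_inn (k : ℕ) (D : Finset ℕ) : Ty k (inn D) ↔ Ty k D := by
  have h1 : i3 (inn D) = i3 D := by
    ext p
    simp only [i3, inn, mem_filter]
    constructor
    · rintro ⟨⟨a, b⟩, c⟩
      exact ⟨a, c⟩
    · rintro ⟨a, c⟩
      exact ⟨⟨a, by omega⟩, c⟩
  have h2 : i5 (inn D) = i5 D := by
    ext p
    simp only [i5, inn, mem_filter]
    constructor
    · rintro ⟨⟨a, b⟩, c⟩
      exact ⟨a, c⟩
    · rintro ⟨a, c⟩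
      exact ⟨⟨a, by omega⟩, c⟩
  unfold Ty
  rw [h1, h2]

theorem sum_adm (k : ℕ) (A : Finset ℕ) (f : Finset ℕ → Finset ℕ → ℤ) :
    ∑ D ∈ adm k A, f (inn D) (sp D) =
      ∑ S ∈ (inn A).powerset.filter (fun S => Ty k S), ∑ Q ∈ (sp A).powerset, f S Q := by
  rw [← Finset.sum_product']
  refine Finset.sum_bij' (fun D _ => (inn D, sp D)) (fun x _ => x.1 ∪ x.2) ?_ ?_ ?_ ?_ ?_
  · intro D hD
    rw [mem_adm] at hD
    rw [mem_product, mem_filter, mem_powerset, mem_powerset]
    exact ⟨⟨filter_subset_filter _ hD.1, (ty_inn k D).2 hD.2⟩, filter_subset_filter _ hD.1⟩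
  · rintro ⟨S, Q⟩ hx
    rw [mem_product, mem_filter, mem_powerset, mem_powerset] at hx
    obtain ⟨⟨a1, a2⟩, a4⟩ := hx
    simp only at a1 a2 a4
    rw [mem_adm]
    refine ⟨union_subset (a1.trans (filter_subset _ _)) (a4.trans (filter_subset _ _)), ?_⟩
    rw [← ty_inn]
    show Ty k (inn (S ∪ Q))
    rw [inn_un a1 a4]
    exact a2
  · intro D hD
    exact un_eq D
  · rintro ⟨S, Q⟩ hx
    rw [mem_product, mem_filter, mem_powerset, mem_powerset] at hx
    obtain ⟨⟨a1, a2⟩, a4⟩ := hx
    simp only at a1 a2 a4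
    show (inn (S ∪ Q), sp (S ∪ Q)) = (S, Q)
    rw [inn_un a1 a4, sp_un a1 a4]
  · intro D hD
    rfl

theorem e1_sdiff {S R : Finset ℕ} (h : S ⊆ R) (k : ℕ) : e1 S k + e1 (R \ S) k = e1 R k := by
  unfold e1
  rw [add_comm]
  exact sum_sdiff h

theorem tot_par (A : Finset ℕ) :
    (2 : ℤ) ∣ ∑ D ∈ adm 1 A, zq D * z3 (A \ D) -
      (((inn A).powerset.filter (fun S => Ty 1 S)).card : ℤ) *
        Yd lres (fun p => eQ 3 p + e1 (inn A) p) (sp A) := by
  have h1 : ∑ D ∈ adm 1 A, zq D * z3 (A \ D) =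
      ∑ D ∈ adm 1 A,
        (fun S Q : Finset ℕ => Yd lres (fun p => xres p + e1 S p) Q *
          Yd lres (fun p => xres p + eQ 3 p + e1 (inn A \ S) p) (sp A \ Q)) (inn D) (sp D) := by
    apply sum_congr rfl
    intro D _
    have a1 : inn (A \ D) = inn A \ inn D := filt_sdiff _ _ _
    have a2 : sp (A \ D) = sp A \ sp D := filt_sdiff _ _ _
    unfold zq z3 ei e1
    rw [a1, a2]
  have h2 := sum_adm 1 A (fun S Q : Finset ℕ => Yd lres (fun p => xres p + e1 S p) Q *
          Yd lres (fun p => xres p + eQ 3 p + e1 (inn A \ S) p) (sp A \ Q))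
  rw [h1, h2, ← nsmul_eq_mul, ← sum_const, ← sum_sub_distrib]
  apply dvd_sum
  intro S hS
  rw [mem_filter, mem_powerset] at hS
  have h3 := Pool.Agent.Z179.yd_add lres (sp A).card (sp A) rfl
    (fun p => xres p + e1 S p) (fun p => xres p + eQ 3 p + e1 (inn A \ S) p)
  show (2 : ℤ) ∣ ∑ Q ∈ (sp A).powerset, Yd lres (fun p => xres p + e1 S p) Q *
          Yd lres (fun p => xres p + eQ 3 p + e1 (inn A \ S) p) (sp A \ Q) - _
  rw [← h3]
  apply Pool.Agent.Z179.yd_par
  intro k _
  have h4 := e1_sdiff hS.1 k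
  refine ⟨xres k, ?_⟩
  show xres k + e1 S k + (xres k + eQ 3 k + e1 (inn A \ S) k) - (eQ 3 k + e1 (inn A) k) =
    2 * xres k
  linarith

/-- the symmetric difference with a pair -/
theorem symm_card (f : ℕ → Prop) [DecidablePred f] (S B : Finset ℕ) :
    (((S \ B) ∪ (B \ S)).filter f).card + 2 * ((S ∩ B).filter f).card =
      (S.filter f).card + (B.filter f).card := by
  rw [filter_union, card_union_of_disjoint (by
    rw [disjoint_left]
    intro x hx hx2
    exact (mem_sdiff.1 (mem_filter.1 hx2).1).2 (mem_sdiff.1 (mem_filter.1 hx).1).1)]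
  have h1 : ((S \ B).filter f).card + ((S ∩ B).filter f).card = (S.filter f).card := by
    rw [← card_union_of_disjoint, ← filter_union, sdiff_union_inter]
    rw [disjoint_left]
    intro x hx hx2
    exact (mem_sdiff.1 (mem_filter.1 hx).1).2 (mem_inter.1 (mem_filter.1 hx2).1).2
  have h2 : ((B \ S).filter f).card + ((S ∩ B).filter f).card = (B.filter f).card := by
    rw [inter_comm S B, ← card_union_of_disjoint, ← filter_union, sdiff_union_inter]
    rw [disjoint_left]
    intro x hx hx2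
    exact (mem_sdiff.1 (mem_filter.1 hx).1).2 (mem_inter.1 (mem_filter.1 hx2).1).2
  omega

/-- the number of sets of inert primes of type one is even -/
theorem card_ty {A : Finset ℕ} (hC : Cl A) (hT : Ty 1 A) (h3 : 3 ≤ (inn A).card) :
    Even ((inn A).powerset.filter (fun S => Ty 1 S)).card := by
  have hin := card_inn hC
  obtain ⟨a1, a2⟩ := hT
  -- a pair of the same kind
  obtain ⟨B, hBR, hBn, hB3, hB5⟩ : ∃ B : Finset ℕ, B ⊆ inn A ∧ B ≠ ∅ ∧ (i3 B).card % 2 = 0 ∧
      (i5 B).card % 2 = 0 := by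
    by_cases h5 : 2 ≤ (i5 A).card
    · obtain ⟨B, hB1, hB2⟩ := exists_subset_card_eq h5
      refine ⟨B, ?_, ?_, ?_, ?_⟩
      · intro x hx
        have := mem_filter.1 (hB1 hx)
        exact mem_filter.2 ⟨this.1, by omega⟩
      · intro h
        rw [h] at hB2
        simp at hB2
      · have : i3 B = ∅ := by
          unfold i3
          rw [filter_eq_empty_iff]
          intro x hx
          have := (mem_filter.1 (hB1 hx)).2
          omega
        rw [this]
        simp
      · have : i5 B = B := by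
          unfold i5
          rw [filter_eq_self]
          intro x hx
          exact (mem_filter.1 (hB1 hx)).2
        rw [this, hB2]
    · have h33 : 2 ≤ (i3 A).card := by omega
      obtain ⟨B, hB1, hB2⟩ := exists_subset_card_eq h33
      refine ⟨B, ?_, ?_, ?_, ?_⟩
      · intro x hx
        have := mem_filter.1 (hB1 hx)
        exact mem_filter.2 ⟨this.1, by omega⟩
      · intro h
        rw [h] at hB2
        simp at hB2
      · have : i3 B = B := by
          unfold i3
          rw [filter_eq_self]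
          intro x hx
          exact (mem_filter.1 (hB1 hx)).2
        rw [this, hB2]
      · have : i5 B = ∅ := by
          unfold i5
          rw [filter_eq_empty_iff]
          intro x hx
          have := (mem_filter.1 (hB1 hx)).2
          omega
        rw [this]
        simp
  have key : ∑ S ∈ (inn A).powerset.filter (fun S => Ty 1 S), (1 : ZMod 2) = 0 := by
    refine Finset.sum_involution (fun S _ => (S \ B) ∪ (B \ S)) ?_ ?_ ?_ ?_
    · intro S _
      decide
    · intro S _ _ h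
      apply hBn
      have hk : ∀ x, x ∈ (S \ B) ∪ (B \ S) ↔ x ∈ S := fun x => by rw [h]
      rw [eq_empty_iff_forall_notMem]
      intro x hx
      have hx2 := hk x
      rw [mem_union, mem_sdiff, mem_sdiff] at hx2
      by_cases hxS : x ∈ S
      · rcases hx2.2 hxS with h5 | h5
        · exact h5.2 hx
        · exact h5.2 hxS
      · exact hxS (hx2.1 (Or.inr ⟨hx, hxS⟩))
    · intro S hS
      rw [mem_filter, mem_powerset] at hS ⊢
      obtain ⟨b1, b2, b3⟩ := hS
      refine ⟨union_subset (sdiff_subset.trans b1) (sdiff_subset.trans hBR), ?_, ?_⟩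
      · have := symm_card (fun p => p % 8 = 3) S B
        unfold i3 at b2 hB3 ⊢
        omega
      · have := symm_card (fun p => p % 8 = 5) S B
        unfold i5 at b3 hB5 ⊢
        omega
    · intro S _
      ext x
      simp only [mem_union, mem_sdiff]
      by_cases a : x ∈ S
      · by_cases b : x ∈ B
        · simp [a, b]
        · simp [a, b]
      · by_cases b : x ∈ B
        · simp [a, b]
        · simp [a, b]
  rw [sum_const, nsmul_eq_mul, mul_one] at key
  rwa [ZMod.natCast_eq_zero_iff, ← even_iff_two_dvd] at key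

/-! ### one inert prime -/

theorem base (hs : S_INDQS) {A : Finset ℕ} (hC : Cl A) (hT : Ty 1 A) (h1 : (inn A).card = 1) :
    ∃ y : ℤ, g0 ((pr A : ℕ) : ℤ) (bt A) = 2 ^ ((sp A).card + (inn A).card / 2) * y ∧
      (Odd y ↔ Odd (Yd lres (fun p => xres p + ei A p) (sp A))) := by
  obtain ⟨q, hq⟩ := card_eq_one.1 h1
  have hin := card_inn hC
  obtain ⟨a1, a2⟩ := hT
  have h3 : (i3 A).card = 1 := by omega
  have hqA : q ∈ A := by
    have : q ∈ inn A := by rw [hq]; exact mem_singleton_self q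
    exact (mem_filter.1 this).1
  have hi3 : i3 A ⊆ inn A := by
    intro x hx
    have := mem_filter.1 hx
    exact mem_filter.2 ⟨this.1, by omega⟩
  have hq8 : q % 8 = 3 := by
    obtain ⟨r, hr⟩ := card_eq_one.1 h3
    have h4 : r ∈ i3 A := by rw [hr]; exact mem_singleton_self r
    have h5 := hi3 h4
    rw [hq, mem_singleton] at h5
    rw [← h5]
    exact (mem_filter.1 h4).2
  have hQr : Qr q := by
    rcases hC.1 q hqA with h | h
    · have := h.2.1
      omega
    · exact ⟨h.1, hq8, h.2.2⟩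
  have hSp : ∀ p ∈ sp A, Sp p := by
    intro p hp
    obtain ⟨b1, b2⟩ := mem_filter.1 hp
    rcases hC.1 p b1 with h | h
    · exact h
    · exfalso
      have := h.2.1
      omega
  have hins : A = insert q (sp A) := by
    have := un_eq A
    rw [hq] at this
    rw [insert_eq]
    exact this.symm
  have hqn : q ∉ sp A := by
    intro h
    have := (mem_filter.1 h).2
    omega
  obtain ⟨y, hy1, hy2⟩ := hs q (sp A) hQr hSp
  have epr : pr A = q * pr (sp A) := by
    conv_lhs => rw [hins]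
    unfold pr
    rw [prod_insert hqn]
  have ebt : bt A = bq q (sp A) := by
    conv_lhs => rw [hins]
    unfold bt bq
    rw [prod_insert hqn, prod_congr rfl (fun p hp => s7_sp (hSp p hp))]
    congr 1
    unfold s7 cq
    rcases hQr.2.2 with h | h | h
    · rw [if_neg (by omega), if_neg (by omega), if_pos h]
    · rw [if_neg (by omega), if_pos (Or.inr h), if_neg (by omega), if_pos h]
    · rw [if_pos (Or.inr h), if_neg (by omega), if_neg (by omega)]
  have eei : ∀ p, ei A p = eQ q p := by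
    intro p
    unfold ei
    rw [hq, sum_singleton]
  refine ⟨y, ?_, ?_⟩
  · rw [epr, ebt, hy1, h1]
    norm_num
  · rw [hy2]
    have : (fun p => xres p + ei A p) = (fun p => xres p + eQ q p) := by
      funext p
      rw [eei]
    rw [this]

/-- **INDQG**: the parity of the unweighted sums, norms `pr A`. -/
theorem t_INDQG (hb : Pool.Agent.Y17.N.S_BIL) (h3 : S_IND3G) (hg : S_GENQG) (hq : S_FQ)
    (hs : Pool.Agent.Y17.N.S_INDQS) : S_INDQG := by
  classical
  intro A
  induction A using Finset.strongInduction with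
  | H A ih =>
    intro hC hT
    by_cases h1 : (inn A).card = 1
    · exact base hs hC hT h1
    have hin := card_inn hC
    have hT1 := hT.1
    have hT2 := hT.2
    have hS3 : 3 ≤ (inn A).card := by omega
    -- the quotients
    obtain ⟨y, hydef⟩ : ∃ y : Finset ℕ → ℤ,
      y = fun D => g0 ((pr D : ℕ) : ℤ) (bt D) / (2 ^ eE D) := ⟨_, rfl⟩
    have hy : ∀ D ⊆ A, Ty 1 D → D ≠ A → g0 ((pr D : ℕ) : ℤ) (bt D) = 2 ^ eE D * y D ∧
        (Odd (y D) ↔ Odd (zq D)) := by
      intro D hD hTD hDA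
      obtain ⟨z, hz1, hz2⟩ := ih D (Finset.ssubset_iff_subset_ne.2 ⟨hD, hDA⟩)
        (cl_sub hC hD) hTD
      have : y D = z := by
        rw [hydef]
        show g0 ((pr D : ℕ) : ℤ) (bt D) / (2 ^ eE D) = z
        rw [hz1]
        exact Int.mul_ediv_cancel_left _ (by positivity)
      rw [this]
      exact ⟨hz1, hz2⟩
    obtain ⟨w, hwdef⟩ : ∃ w : Finset ℕ → ℤ,
      w = fun D => g0 ((3 * pr D : ℕ) : ℤ) (2 * bt D) / (2 ^ eE D) := ⟨_, rfl⟩
    have hw : ∀ D ⊆ A, Ty 0 D → g0 ((3 * pr D : ℕ) : ℤ) (2 * bt D) = 2 ^ eE D * w D ∧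
        (Odd (w D) ↔ Odd (z3 D)) := by
      intro D hD hTD
      obtain ⟨z, hz1, hz2⟩ := h3 D (cl_sub hC hD) hTD
      have : w D = z := by
        rw [hwdef]
        show g0 ((3 * pr D : ℕ) : ℤ) (2 * bt D) / (2 ^ eE D) = z
        rw [hz1]
        exact Int.mul_ediv_cancel_left _ (by positivity)
      rw [this]
      exact ⟨hz1, hz2⟩
    obtain ⟨N, hN1, hN2⟩ := hg A hC hT
    -- the exponent
    obtain ⟨M, hM1, hM2⟩ : ∃ M : ℤ, 2 ^ ex A * N = 2 ^ eE A * M ∧ Even M := by
      have hex : eE A ≤ ex A := by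
        unfold eE ex
        omega
      refine ⟨2 ^ (ex A - eE A) * N, ?_, ?_⟩
      · rw [← mul_assoc, ← pow_add, Nat.add_sub_cancel' hex]
      · by_cases hd : ex A - eE A = 0
        · have h13 : (i3 A).card = 1 ∧ (i5 A).card = 2 := by
            unfold ex eE at hd
            omega
          have hNe : Even N := by
            rw [← Int.not_odd_iff_even, hN2, Nat.not_odd_iff_even]
            exact hq A hC h13.1 h13.2
          exact hNe.mul_left _
        · rw [even_iff_two_dvd]
          exact Dvd.dvd.mul_right (dvd_pow_self 2 hd) _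
    have hsum : ∑ D ∈ adm 1 A, g0 ((pr D : ℕ) : ℤ) (bt D) *
        g0 ((3 * pr (A \ D) : ℕ) : ℤ) (2 * bt (A \ D)) = 3 * (2 ^ eE A * M) := by
      rw [← hM1, ← hN1, mul_sum]
      apply sum_congr rfl
      intro D hD
      rw [mem_adm] at hD
      exact bil hb hC hT hD.1 hD.2
    have hAmem : A ∈ adm 1 A := mem_adm.2 ⟨Subset.refl A, hT⟩
    obtain ⟨F, hF⟩ : ∃ F, F = (adm 1 A).erase A := ⟨_, rfl⟩
    have hFm : ∀ D ∈ F, D ⊆ A ∧ Ty 1 D ∧ D ≠ A := by
      intro D hD
      rw [hF, mem_erase, mem_adm] at hD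
      exact ⟨hD.2.1, hD.2.2, hD.1⟩
    have hempty : g0 ((3 * pr (∅ : Finset ℕ) : ℕ) : ℤ) (2 * bt (∅ : Finset ℕ)) = 1 := by
      have h1 : ((3 * pr (∅ : Finset ℕ) : ℕ) : ℤ) = 3 := by simp [pr]
      have h2 : 2 * bt (∅ : Finset ℕ) = 2 := by simp [bt]
      rw [h1, h2]
      exact g0_three
    have hs1 : ∑ D ∈ adm 1 A, g0 ((pr D : ℕ) : ℤ) (bt D) *
        g0 ((3 * pr (A \ D) : ℕ) : ℤ) (2 * bt (A \ D)) =
        g0 ((pr A : ℕ) : ℤ) (bt A) + 2 ^ eE A * ∑ D ∈ F, y D * w (A \ D) := by
      rw [← Finset.add_sum_erase _ _ hAmem, ← hF, mul_sum]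
      have e0 : A \ A = ∅ := Finset.sdiff_self A
      rw [e0, hempty, mul_one]
      congr 1
      apply sum_congr rfl
      intro D hD
      obtain ⟨b1, b2, b3⟩ := hFm D hD
      rw [(hy D b1 b2 b3).1, (hw (A \ D) sdiff_subset (ty_sdiff hT b1 b2)).1]
      have hc : (2 : ℤ) ^ eE A = 2 ^ eE D * 2 ^ eE (A \ D) := by
        rw [← pow_add, eE_add hC hT b1 b2]
      rw [hc]
      ring
    have hs2 : ∑ D ∈ adm 1 A, zq D * z3 (A \ D) = zq A + ∑ D ∈ F, zq D * z3 (A \ D) := by
      rw [← Finset.add_sum_erase _ _ hAmem, ← hF]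
      have e0 : A \ A = ∅ := Finset.sdiff_self A
      rw [e0, z3_empty, mul_one]
    have htp := tot_par A
    have hce := card_ty hC hT hS3
    have hce2 : (2 : ℤ) ∣ (((inn A).powerset.filter (fun S => Ty 1 S)).card : ℤ) := by
      exact_mod_cast even_iff_two_dvd.1 hce
    have htot : (2 : ℤ) ∣ ∑ D ∈ adm 1 A, zq D * z3 (A \ D) := by
      have := dvd_add htp (Dvd.dvd.mul_right hce2
        (Yd lres (fun p => eQ 3 p + e1 (inn A) p) (sp A)))
      rwa [sub_add_cancel] at this
    rw [hs2] at htot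
    refine ⟨3 * M - ∑ D ∈ F, y D * w (A \ D), ?_, ?_⟩
    · rw [hs1] at hsum
      show g0 ((pr A : ℕ) : ℤ) (bt A) = 2 ^ eE A * _
      linarith
    · have hcong : (Odd (∑ D ∈ F, y D * w (A \ D)) ↔ Odd (∑ D ∈ F, zq D * z3 (A \ D))) := by
        apply odd_of_cast
        push_cast
        apply sum_congr rfl
        intro D hD
        obtain ⟨b1, b2, b3⟩ := hFm D hD
        rw [odd_cast _ _ (hy D b1 b2 b3).2,
          odd_cast _ _ (hw (A \ D) sdiff_subset (ty_sdiff hT b1 b2)).2]
      show Odd _ ↔ Odd (zq A)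
      rw [Int.odd_iff, Int.odd_iff] at hcong ⊢
      rw [even_iff_two_dvd] at hM2
      omega

end Pool.Agent.Y815.G
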